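import Pool.Agent.X180.OK.Eq
import Pool.Agent.X325.OB.LcBase

/-!
# Effective divisors of small numerical dimension on varieties with trivial canonical class, over
arrangements in products of projective spaces

Let `X` be a normal projective variety with `K_X ~ 0` and `L` an effective `ℚ`-divisor on `X`. As only
the support of `L` matters in the conclusion, the coefficients of `L` may be taken `≥ 1`: then there are
no conditions on ramification along `L`. Let

  `X ⇢ W_l ⇢ ... ⇢ W_1 ⇢ W_0`, `l ≥ 0`,

be dominant rational maps. Suppose:

* (the base) `W_0` is a product of projective spaces `P^{n_1} × ... × P^{n_m}`; in each factor there are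
  hyperplanes `ℓ i k = 0`, in any position, with weights `wt i k ≥ 0`, such that the arrangement is log
  canonical (the sum of the weights of hyperplanes with a common point is at most the codimension of
  their intersection) and `∑ k, wt i k ≥ n_i + 1`. If `v i k` are the multiplicities of the hyperplanes
  at a prime divisor `P` of `X`, not all zero, then `∑ (mx_i - ∑ wt i k v i k) ≥ 1 - L P`, where `mx_i`
  is the greatest sum of `n_i + 1` of the `v i k` whose hyperplanes have no common point. `I` is a set
  of factors, `k = ∑ n_i`, `i ∈ I`; the inequality is strict, if `∑ k, wt i k = n_i + 1` for some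
  `i ∈ I` for which the multiplicity of one distinguished hyperplane is positive. (The condition is
  void for the preimages of hyperplanes which are in `Supp L`, if the coefficients are large.)
* (the steps of the tower) for each `i < l` the fibres of `W_{i+1}` over `W_i`, of dimension `e_i`,
  *with the boundary and the multiplicities of the fibres of `(X, L)` over `W_{i+1}`*, correspond to the
  product of one orbifold `V_i` (which does not depend on the point of `W_i`) and of moving log
  canonical arrangements: there are a variety `X'` with a generically finite map `X' ⇢ X` (ramified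
  anywhere) and a rational map of `X'` to `V_i × P^{r_1} × ... × P^{r_c}`, `r_j ≥ 1`, which is dominant
  on the fibres of `X'` over `W_i`, and whose fibres (over `W_i`) are, up to finite maps, the fibres of
  `X' ⇢ W_{i+1}`; `a (p) ≥ 0` is the log discrepancy of an orbifold divisor at the places `p` of `V_i`
  in the image of the prime divisors of `X` (`a (p) = 0` is allowed: logarithmic poles), and the
  Kodaira dimension of `(V_i, a)` is at least `h_i`; in each `P^{r_j}` there are any hyperplanes
  `A j k = 0`, in any position, which move with the point of a variety finite over `W_i`, with weights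
  `w j k ≥ 0`, such that the arrangement is log canonical (the sum of the weights of hyperplanes with a
  common point is at most the codimension of their intersection) and `∑ k, w j k ≥ r_j + 1`. Let `Q` be
  a place of the function field of `X'` over a prime divisor `P` of `X` with `L P < 1` which dominates
  `W_i` but not `W_{i+1}`, with ramification index `ε`, let `e j k` be the multiplicities of the
  hyperplanes at `Q`, and `R = ∑ (mx_j - ∑ w j k e j k)`, where `mx_j` is the greatest sum of `r_j + 1`
  of the `e j k` whose hyperplanes have no common point. Then `ε (1 - L P) ≤ ν a (p) + R` if `Q` lies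
  over the place `p` of `V_i`, with ramification index `ν`; and if `Q` dominates `V_i` then
  `ε (1 - L P) ≤ R`, or `ε (1 - L P) ≤ 1` if all `e j k` are zero. Let `λ_i` be the sum of `h_i` and of
  the `r_j` with `∑ k, w j k > r_j + 1`.
* (the fibres of `X` over `W_l`) there is a correspondence `X'` as above between `X` and a relative
  product `P^{r_1} × ... × P^{r_c}` over `W_l` (`c = 0` is allowed), with log canonical moving hyperplane
  arrangements with weights in `[0, 1]` (with any sum) and `ε (1 - L P) ≤ R` (`ε (1 - L P) ≤ 1`, if all
  `e j k` are zero) at the prime divisors `P` of `X` with `L P < 1` which dominate `W_l`; and at the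
  places over the prime divisors of the product `K_X + L` is at most the pull back of the log
  canonical divisor of the arrangement (`Cor`). Let `λ` be the sum of the `r_j` with
  `∑ k, w j k > r_j + 1`. (For instance the fibres may be isogenous to products of elliptic curves,
  which are double covers of `P^1` with four branch points: here `∑ k, w j k = r_j + 1` for all `j`,
  and `λ = 0`.)

Let `p` be a natural number with `p ≤ k + ∑ λ_i + λ`. Then `∑ k, w j k ≥ r_j + 1` for all `j` (for the
fibres over `W_l`), and

  `κ(L') = ν(L') = p`

for all effective `ℚ`-divisors `L'` with `Supp L' = Supp L` and `ν(L') ≤ p`.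

Relation with the question: let `X` be a projective hyperkähler manifold of dimension `2 p`, and let
`L'` be a non-trivial nef line bundle with `q(c_1(L')) = 0`, some multiple of which has a section with
the support of `L`. Then `ν(L') = p` by Fujiki's relation, so `κ(L') = ν(L')`, and `K_X + t L' ~ t L'` is
nef and abundant, and a klt adjoint divisor for small `t > 0`; so `L'` is semiample (Kawamata 1985), and
a multiple of `L'` is the pull back of an ample line bundle by a Lagrangian fibration (Matsushita). For
instance `W_0 = P^p`, as it is known or expected for the base of a Lagrangian fibration, `l = 0`, and the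
general fibres correspond to products of `p` elliptic curves; the maps are only rational.

Notation: `X` is given by the homogeneous coordinates `y` of its generic point, with values in the
function field `K`; prime divisors are places `P` of `K`, `P.ord` is the order along `P`. `E i` is the
function field of `W_i`. `iitakaDim` and `nuDim` are the literal definitions of the Iitaka and of the
numerical dimension of a divisor by means of the dimensions of the spaces of sections of `m L'` and of
`m L' + A`. Definitions: `Pool/Agent/X180/OJ/Defs` (`JointFibres`, `IsTower`), `OK/Defs`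
(`TorsionCanonical`, `SameSupport`, `iitakaDim`, `nuDim`), `OP/Defs`.

Proof: the forms of a step are products of the pull backs of the forms of `V_i`, of determinants of
logarithmic derivatives of the linear forms, and of one joint Wronskian of the coordinates of `V_i` and
of the `P^{r_j}`; locally, at `Q`, one compares with the arrangement enlarged by a simplex of
logarithmic coordinates of `V_i` at `p` (`Pool.Agent.X180.OJ.joint_est`). The coefficients are
algebraic over the function field of `W_{i+1}`, and their norms are estimated at the prime divisors of
`X` (`Pool.Agent.X180.OJ.joint_part`). The forms of the steps and of the base are multiplied along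
adapted regular vector fields, and with powers of the canonical form without zeros, which gives the
lower bound for `κ(L')`; and `κ(L') ≤ ν(L') ≤ p` (`Pool.Agent.X180.OK.iso_tow`).
-/

set_option autoImplicit false

open FF Pool.Agent.W602.GT Pool.Agent.Y172 Pool.Agent.Y191
open Pool.Agent.X180.OP (Fibres big)
open Pool.Agent.X180.OJ (IsTower)
open Pool.Agent.X180.OK

namespace Pool.Agent.Results.MP_a405d2_ag.DivisorsOverArrangements

variable {m : ℕ} {n q : Fin m → ℕ}

/-- The base: the hyperplanes `ℓ i k = 0` in the projective space of dimension `n i` have weights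
`wt i k ≥ 0` with sum at least `n i + 1`, and the arrangements are log canonical (`LcArr`, over the
field of constants). -/
def IsBase (ℓ : ∀ i, Fin (q i) → Fin (n i + 1) → ℂ) (wt : ∀ i, Fin (q i) → ℚ) : Prop :=
  (∀ i, (∀ k, 0 ≤ wt i k) ∧ (n i + 1 : ℚ) ≤ ∑ k, wt i k) ∧
    LcArr (⊥ : IntermediateField ℂ ℂ) ℓ wt

/-- The affine coordinates `x i (j + 1) / x i 0` of the points with the homogeneous coordinates
`x i`. -/
def affine {K : Type} [Field K] (x : ∀ i, Fin (n i + 1) → K) (b : (i : Fin m) × Fin (n i)) : K :=
  x b.1 b.2.succ / x b.1 0

/-- The multiplicities over the base, at the prime divisors `P` in the set `S`, with the coefficients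
`L P`: if the hyperplanes `ℓ i k` have the multiplicities `v i k` at `P` (their orders are
`a i + v i k`, where `a i` is the minimum of the orders of the coordinates `x i j`), not all zero, then
`1 - L P ≤ ∑ i, (mx_i - ∑ k, wt i k * v i k)`, with strict inequality if the multiplicity of the
distinguished hyperplane `k0 i` is positive for some `i ∈ I` with `∑ k, wt i k = n i + 1`. -/
def Multiplicities {K : Type} [Field K] [Algebra ℂ K] (S : Set (Place ℂ K))
    (L : Place ℂ K → ℚ) (ℓ : ∀ i, Fin (q i) → Fin (n i + 1) → ℂ) (wt : ∀ i, Fin (q i) → ℚ)
    (x : ∀ i, Fin (n i + 1) → K) (I : Finset (Fin m)) (k0 : ∀ i, Fin (q i)) : Prop :=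
  ∀ P ∈ S, ∀ (a : Fin m → ℤ) (v : ∀ i, Fin (q i) → ℕ),
    (∀ i, MOrd P (fun k j => algebraMap ℂ K (ℓ i k j)) (x i) (a i) (v i)) → (∃ i, v i ≠ 0) →
    1 - L P ≤ ∑ i, ((mx ℓ i (v i) : ℚ) - ∑ k, wt i k * v i k) ∧
      ((∃ i ∈ I, ∑ k, wt i k = (n i + 1 : ℚ) ∧ v i (k0 i) ≠ 0) →
        1 - L P < ∑ i, ((mx ℓ i (v i) : ℚ) - ∑ k, wt i k * v i k))

/-- **Abundance for divisors of small numerical dimension.** Let `ℓ i` be log canonical arrangements
of hyperplanes with weights `wt i k` with sums at least `n i + 1`, as in `IsBase`. Let `X` be a normal
projective variety with `K_X ~ 0`, `L` an effective `ℚ`-divisor, and `X ⇢ W_l ⇢ ... ⇢ W_0` a tower of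
dominant rational maps over the product `W_0` of the projective spaces, given by homogeneous
coordinates `x i`, whose steps, with the boundary `L`, are as in `JointFibres`, of dimensions `e i` and
log Kodaira dimensions `lam i`. Suppose that the condition `Multiplicities` holds, and let the fibres of
`X` over `W_l` be as in `Fibres`. Let `p ≤ ∑ i ∈ I, n i + ∑ i, lam i + big`. Then
`r j + 1 ≤ ∑ i, w j i` for all `j`, and for all effective `ℚ`-divisors `L'` with the same support as `L`
whose numerical dimension is at most `p`, the Iitaka dimension and the numerical dimension are `p`,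
and `∑ i ∈ I, n i + ∑ i, lam i + big = p`. -/
theorem result (ℓ : ∀ i, Fin (q i) → Fin (n i + 1) → ℂ) (wt : ∀ i, Fin (q i) → ℚ)
    (hℓ : IsBase ℓ wt) (I : Finset (Fin m)) (k0 : ∀ i, Fin (q i)) (K : Type) [Field K]
    [Algebra ℂ K] (N l c p : ℕ) (E : Fin (l + 1) → IntermediateField ℂ K) (D : Fin (l + 1) → ℕ)
    (e lam : Fin l → ℕ) (r s : Fin c → ℕ) (y : Fin (N + 1) → K) (L : Place ℂ K → ℚ)
    (hy : NormalModel y) (hn : Algebra.trdeg ℂ K = (D (Fin.last l) + ∑ j, r j : ℕ))
    (hK : TorsionCanonical y (D (Fin.last l) + ∑ j, r j) 1) (hL : Effective y L)
    (x : ∀ i, Fin (n i + 1) → K) (hx0 : ∀ i, x i 0 ≠ 0)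
    (hind : AlgebraicIndependent ℂ (affine x))
    (hE0 : E 0 = IntermediateField.adjoin ℂ (Set.range (affine x)))
    (hm : Multiplicities {P | IsPrimeDivisor y P} L ℓ wt x I k0)
    (hT : IsTower {P | IsPrimeDivisor y P} (fun P => (L P : ℝ)) E D e lam)
    (w : ∀ j, Fin (s j) → ℚ)
    (hF : Fibres y (D (Fin.last l) + ∑ j, r j) L {P | IsPrimeDivisor y P ∧ L P < 1}
      (E (Fin.last l)) r s w)
    (hp : p ≤ ∑ i ∈ I, n i + ∑ i, lam i + big r s w) :
    (∀ j, (r j + 1 : ℚ) ≤ ∑ i, w j i) ∧ ∀ L', SameSupport y L L' →
      (∀ A, Effective y A → Integral y A → nuDim y L' A ≤ (p : EReal)) →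
      ∑ i ∈ I, n i + ∑ i, lam i + big r s w = p ∧ iitakaDim y L' = (p : WithBot ℕ) ∧
      ∀ A, Effective y A → Integral y A → nuDim y L' A = (p : EReal) := by
  have hn' : D (Fin.last l) + ∑ j, r j = D 0 + (∑ i, e i + ∑ j, r j) := by
    rw [Pool.Agent.X180.TP.dims fun i => (hT.2 i).2.1, add_assoc]
  have hE0' : E 0 = Pool.Agent.X180.OP.BaseField x := hE0
  have htr0 : D 0 = ∑ i, n i := by
    have h3 := hT.1 0
    rw [hE0', Pool.Agent.X180.OP.trdeg_base hind] at h3
    exact_mod_cast h3.symm
  refine iso_tow hy hn hK hL hT hF (fun lam' h0 => ?_) hp
  rw [hE0', htr0] at h0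
  rw [htr0]
  exact Pool.Agent.X325.OB.lc_base (Δ := L) hy (fun P hP => hP) (fun P hP => hL.1 P hP)
    (fun i => (hℓ.1 i).1) (fun i => (hℓ.1 i).2) hℓ.2 hx0 hind
    (by rw [← htr0, ← hn']; exact hn) I k0 (fun P hP a v hv hv0 => hm P hP a v hv hv0) h0

end Pool.Agent.Results.MP_a405d2_ag.DivisorsOverArrangements
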